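import Mathlib
import Pool.Agent.SSQ52.Main

/-!
# The ranks of the curves with torsion group `Z/2 x Z/4` and `Z/2 x Z/8` in short squares

The elliptic curves over `ℚ` whose group of points contains `Z/2 x Z/4` are the curves
`y² = x (x + u²) (x + v²)`, those with a subgroup `Z/2 x Z/8` the curves
`y² = x (x + (2 u v)⁴) (x + (u² - v²)⁴)`, `u`, `v` coprime. Let the parameters run through a square of
side `X` anywhere in the box `|u|, |v| ≤ X ^ L`, `L` fixed but arbitrarily large. A positive proportion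
of the pairs of the square gives curves with torsion group exactly `Z/2 x Z/4` (`Z/2 x Z/8`), and over
these pairs the average of `2 ^ rank * #Ш[2 ^ k] ^ (1 / k)` is bounded by a constant that depends on
`L` only. The starting results on these torsion groups order all the curves by height or by the
discriminant (the squares around the origin), and the starting result `BinaryFormFamilies` on short
squares needs odd multiplicities, which excludes the forms `u²`, `v²` and the fourth powers.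
-/

set_option autoImplicit false

namespace Pool.Agent.Results.MP_9e6228_nt.ShortSquares

open Finset

open Pool.Agent.TH841.SH.D (Sha ShaTor HasDiv)

/-- the curve `y² = x (x + M) (x + N)` over `ℚ` -/
def E (M N : ℤ) : WeierstrassCurve ℚ := ⟨0, (M : ℚ) + N, 0, (M : ℚ) * N, 0⟩

/-- the curve `y² = x (x + u²) (x + v²)`, for `t = (u, v)` -/
def curve24 (t : ℤ × ℤ) : WeierstrassCurve ℚ := E (t.1 ^ 2) (t.2 ^ 2)

/-- the curve `y² = x (x + (2 u v)⁴) (x + (u² - v²)⁴)`, for `t = (u, v)` -/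
def curve28 (t : ℤ × ℤ) : WeierstrassCurve ℚ := E ((2 * t.1 * t.2) ^ 4) ((t.1 ^ 2 - t.2 ^ 2) ^ 4)

/-- the Mordell-Weil rank -/
noncomputable def rank (W : WeierstrassCurve ℚ) : ℕ := Module.finrank ℤ W.toAffine.Point

/-- `Z/2 x Z/m` embeds in the group of the rational points -/
def Contains (m : ℕ) (W : WeierstrassCurve ℚ) : Prop :=
  ∃ f : ZMod 2 × ZMod m →+ W.toAffine.Point, Function.Injective f

open Classical in
/-- The pairs `t = (u, v)` of coprime nonzero integers with `u² ≠ v²` in the square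
`U < u ≤ U + X`, `V < v ≤ V + X` for which the curve `curve24 t` has a subgroup `Z/2 x Z/4` and no
point of order 8; by Mazur's theorem its torsion group is then `Z/2 x Z/4`. -/
noncomputable def Pairs24 (U V : ℤ) (X : ℕ) : Finset (ℤ × ℤ) :=
  (Ioc U (U + X) ×ˢ Ioc V (V + X)).filter (fun t => IsCoprime t.1 t.2 ∧ t.1 ≠ 0 ∧ t.2 ≠ 0 ∧
    t.1 ^ 2 ≠ t.2 ^ 2 ∧ Contains 4 (curve24 t) ∧
      ∀ P : (curve24 t).toAffine.Point, addOrderOf P ≠ 8)

open Classical in
/-- The pairs `t = (u, v)` of coprime nonzero integers with `u² ≠ v²` in the square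
`U < u ≤ U + X`, `V < v ≤ V + X` for which the curve `curve28 t` has a subgroup `Z/2 x Z/8`; by
Mazur's theorem its torsion group is then `Z/2 x Z/8`. -/
noncomputable def Pairs28 (U V : ℤ) (X : ℕ) : Finset (ℤ × ℤ) :=
  (Ioc U (U + X) ×ˢ Ioc V (V + X)).filter (fun t => IsCoprime t.1 t.2 ∧ t.1 ≠ 0 ∧ t.2 ≠ 0 ∧
    t.1 ^ 2 ≠ t.2 ^ 2 ∧ Contains 8 (curve28 t))

open Classical in
/-- The statement for the curves `W t`, `t` in a set `S` of pairs of a square of side `X`: the set has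
at least `X² / C` elements, the groups `Ш[2 ^ k]` are finite, the average of
`2 ^ rank * #Ш[2 ^ k] ^ (1 / k)` is at most `C` for every `k ≥ 1`, and the proportion of the curves of
rank at least `r` whose Tate-Shafarevich group contains `(ℚ₂ / ℤ₂) ^ δ` is at most `C / 2 ^ (r + δ)`. -/
def Bounded (C : ℝ) (X : ℕ) (W : ℤ × ℤ → WeierstrassCurve ℚ) (S : Finset (ℤ × ℤ)) : Prop :=
  (X : ℝ) ^ 2 ≤ C * S.card ∧
  (∀ t ∈ S, ∀ k : ℕ, Finite (ShaTor (W t) (2 ^ k))) ∧
  (∀ k : ℕ, 1 ≤ k → ∑ t ∈ S, (2 : ℝ) ^ rank (W t) *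
    (Nat.card (ShaTor (W t) (2 ^ k)) : ℝ) ^ ((1 : ℝ) / k) ≤ C * S.card) ∧
  ∀ r δ : ℕ, ((S.filter (fun t => r ≤ rank (W t) ∧ HasDiv (W t) δ)).card : ℝ) ≤
    C * S.card / 2 ^ (r + δ)

/-- **Theorem.** For every `L` there are `C` and `X₀` such that for all `X ≥ X₀` and all integers
`U`, `V` with `|U|, |V| ≤ X ^ L`: among the pairs `(u, v)` of the square `(U, U + X] x (V, V + X]` at
least `X² / C` give a curve with torsion group `Z/2 x Z/4`, and over these the average of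
`2 ^ rank * #Ш[2 ^ k] ^ (1 / k)` is at most `C` for every `k ≥ 1`; and the same for `Z/2 x Z/8`. -/
theorem result : ∀ L : ℕ, ∃ (C : ℝ) (X₀ : ℕ), ∀ X : ℕ, X₀ ≤ X → ∀ U V : ℤ,
    U.natAbs ≤ X ^ L → V.natAbs ≤ X ^ L →
      Bounded C X curve24 (Pairs24 U V X) ∧ Bounded C X curve28 (Pairs28 U V X) := by
  classical
  intro L
  obtain ⟨C1, X1, h1⟩ := Pool.Agent.SSQ52.main4 (fun t => IsCoprime t.1 t.2 ∧ t.1 ≠ 0 ∧ t.2 ≠ 0 ∧
    t.1 ^ 2 ≠ t.2 ^ 2 ∧ Contains 4 (curve24 t) ∧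
      ∀ P : (curve24 t).toAffine.Point, addOrderOf P ≠ 8)
    (fun t ht => ⟨ht.1, ht.2.1, ht.2.2.1, ht.2.2.2.1⟩)
    (fun t a1 a2 a3 a4 a5 => ⟨a1, a2, a3, fun h => a4 (Int.natAbs_eq_iff_sq_eq.2 h),
      Pool.Agent.SSQ52.contains4 a2 a3 a4, fun P => Pool.Agent.SSQ52.no8 a1 a2 a3 a4 a5 P⟩) L
  obtain ⟨C2, X2, h2⟩ := Pool.Agent.SSQ52.main8 (fun t => IsCoprime t.1 t.2 ∧ t.1 ≠ 0 ∧ t.2 ≠ 0 ∧
    t.1 ^ 2 ≠ t.2 ^ 2 ∧ Contains 8 (curve28 t))
    (fun t ht => ⟨ht.1, ht.2.1, ht.2.2.1, ht.2.2.2.1⟩)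
    (fun t a1 a2 a3 a4 a5 => ⟨a1, a2, a3, fun h => a4 (Int.natAbs_eq_iff_sq_eq.2 h),
      Pool.Agent.SSQ52.contains8 a2 a3 a4⟩) L
  have key : ∀ (C : ℝ) (X : ℕ) (W : ℤ × ℤ → WeierstrassCurve ℚ) (S : Finset (ℤ × ℤ)),
      Pool.Agent.SSQ52.Holds C X W S → Bounded C X W S := fun _ _ _ _ h => h
  refine ⟨max C1 C2, max X1 X2, fun X hX U V hU hV => ⟨?_, ?_⟩⟩
  · have h := key _ _ curve24 _
      ((h1 X ((le_max_left _ _).trans hX) U V hU hV).mono (le_max_left C1 C2))
    convert h using 1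
    ext t
    simp only [Pairs24, mem_filter]
  · have h := key _ _ curve28 _
      ((h2 X ((le_max_right _ _).trans hX) U V hU hV).mono (le_max_right C1 C2))
    convert h using 1
    ext t
    simp only [Pairs28, mem_filter]

end Pool.Agent.Results.MP_9e6228_nt.ShortSquares
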