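import Mathlib
import Pool.Agent.Q17.TN.One
import Pool.Agent.Y723.Z8.Fin

/-!
# Elliptic curves with torsion group `Z/8` contained in a rational cyclic subgroup of order 16

All elliptic curves `E` over `ℚ` with exactly one rational point of order two and with a point `P` of
order 16 over the algebraic closure such that `σ P = P` or `σ P = 9 P` for all automorphisms `σ`, ordered
by height. Then `2 P` is a rational point of order 8, and by Mazur's theorem the torsion group of `E(ℚ)` is
`Z/8`, generated by `2 P`: these are the curves with torsion group `Z/8` such that the torsion group is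
contained in a rational cyclic subgroup of order 16. Their number tends to infinity with the height, the
average of `2 ^ rank` over them is bounded, and the proportion of the curves of rank at least `r` is at
most `C / 2 ^ r`.

The quotient of such a curve by its rational point of order two has a subgroup `Z/2 x Z/8`; the mean value
theorem for the curves with a subgroup `Z/2 x Z/8` is the one of the library (project Z8).
-/

set_option autoImplicit false

attribute [-instance] DivisionRing.toRatAlgebra

namespace Pool.Agent.Results.MP_9e6228_nt.TorsionEight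

open Finset Filter WeierstrassCurve

/-- the algebraic numbers -/
abbrev QQ : Type := AlgebraicClosure ℚ

/-- the curve `y² = x³ + A x + B` over `ℚ` -/
def E (A B : ℤ) : WeierstrassCurve ℚ := ⟨0, 0, 0, (A : ℚ), (B : ℚ)⟩

open Classical in
/-- There is a point `P` of order `2 n` over the algebraic numbers such that `σ P = P` or
`σ P = (n + 1) P` for all automorphisms `σ`. In other words: there is a rational point of order `n`
(namely `2 P`) that is contained in a rational cyclic subgroup of order `2 n` (generated by `P`). -/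
def Cyclic (n : ℕ) (A B : ℤ) : Prop :=
  ∃ P : ((E A B).baseChange QQ).toAffine.Point, addOrderOf P = 2 * n ∧
    ∀ σ : QQ ≃ₐ[ℚ] QQ,
      Affine.Point.map (W' := (E A B).toAffine) (σ : QQ →ₐ[ℚ] QQ) P = P ∨
      Affine.Point.map (W' := (E A B).toAffine) (σ : QQ →ₐ[ℚ] QQ) P = (n + 1) • P

/-- there is at most one rational point of order two -/
def OneTwo (A B : ℤ) : Prop :=
  ∀ P Q : (E A B).toAffine.Point, addOrderOf P = 2 → addOrderOf Q = 2 → P = Q

open Classical in
/-- The pairs `(A, B)` of integers such that `4 A³ + 27 B² ≠ 0`, there is no prime `p` with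
`p⁴ ∣ A` and `p⁶ ∣ B`, the height `max (4 |A|³) (27 B²)` is at most `H`, and `y² = x³ + A x + B` has a
rational point of order 8 contained in a rational cyclic subgroup of order 16 and only one rational point
of order two. (The bounds `|A|, |B| ≤ H` follow from the bound of the height. Every elliptic curve over
`ℚ` is isomorphic to `E A B` for exactly one pair with the first two properties.) -/
noncomputable def Fam (H : ℕ) : Finset (ℤ × ℤ) :=
  ((Icc (-(H : ℤ)) H) ×ˢ (Icc (-(H : ℤ)) H)).filter (fun c : ℤ × ℤ =>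
    4 * c.1 ^ 3 + 27 * c.2 ^ 2 ≠ 0 ∧ 4 * |c.1| ^ 3 ≤ H ∧ 27 * c.2 ^ 2 ≤ H ∧
    (∀ p : ℕ, p.Prime → ¬ ((p : ℤ) ^ 4 ∣ c.1 ∧ (p : ℤ) ^ 6 ∣ c.2)) ∧
    Cyclic 8 c.1 c.2 ∧ OneTwo c.1 c.2)

/-- the Mordell-Weil rank -/
noncomputable def rank (c : ℤ × ℤ) : ℕ := Module.finrank ℤ (E c.1 c.2).toAffine.Point

/-! ### Proofs -/

open Classical in
/-- the family -/
noncomputable def G (H : ℕ) : Finset (ℤ × ℤ) :=
  (Pool.Agent.Q17.TN.FN 8 H).filter
    (fun c => Pool.Agent.Q17.TN.One2 (Pool.Agent.W307.RT.Sh c.1 c.2))

lemma Fam_eq (H : ℕ) : Fam H = G H := by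
  classical
  ext c
  unfold Fam G
  rw [mem_filter, mem_filter, Pool.Agent.Q17.TN.mem_FN]
  constructor
  · rintro ⟨-, h1, h2, h3, h4, h5, h6⟩
    exact ⟨⟨h1, h2, h3, h4, h5⟩, h6⟩
  · rintro ⟨⟨h1, h2, h3, h4, h5⟩, h6⟩
    exact ⟨Pool.Agent.Q17.TN.small h2 h3, h1, h2, h3, h4, h5, h6⟩

lemma G_mono : Monotone G := by
  classical
  intro H H' h
  exact filter_subset_filter _ (Pool.Agent.Q17.TN.FN_mono 8 h)

lemma many : Pool.Agent.Q17.TN.Many 48 G := by
  classical
  obtain ⟨c, C, T0, hc, h⟩ := Pool.Agent.Y723.Z8.Fin8.low8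
  refine ⟨c / 3, 4096 * C, T0, by positivity, fun T H hT hH => ?_⟩
  have h1 := h T (C * T ^ 48) hT le_rfl
  have h2 := Pool.Agent.Q17.TN.card_down2 (n := 8) (m := 2) (by norm_num) (by norm_num)
    (C * T ^ 48) (Pool.Agent.W307.RT.Cv 8 (C * T ^ 48)) (G (4096 * (C * T ^ 48))) (Subset.refl _)
    (fun b b' e q u r L hb' hb h5 h6 => mem_filter.2 ⟨hb, h5⟩)
  have h3 := card_le_card (G_mono (show 4096 * (C * T ^ 48) ≤ H by rw [← mul_assoc]; exact hH))
  have h4 : ((Pool.Agent.W307.RT.Cv 8 (C * T ^ 48)).card : ℝ) ≤ 3 * ((G H).card : ℝ) := by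
    exact_mod_cast h2.trans (Nat.mul_le_mul_left 3 h3)
  linarith

/-- **Theorem.** Consider the elliptic curves over `ℚ` with torsion group `Z/8` such that the torsion
group is contained in a rational cyclic subgroup of order 16, ordered by height. Their number is finite
for every bound of the height and tends to infinity with it. There is a constant `C` such that for all
`H` the sum of `2 ^ rank` over the curves of height at most `H` is at most `C` times their number, and for
all `r` the number of the curves of height at most `H` and rank at least `r` is at most `C / 2 ^ r` times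
the number of the curves of height at most `H`. -/
theorem result : Tendsto (fun H : ℕ => (Fam H).card) atTop atTop ∧
    ∃ C : ℝ, ∀ H : ℕ, ∑ c ∈ Fam H, (2 : ℝ) ^ rank c ≤ C * (Fam H).card ∧
      ∀ r : ℕ, (((Fam H).filter (fun c => r ≤ rank c)).card : ℝ) ≤ C / 2 ^ r * (Fam H).card := by
  classical
  simp only [Fam_eq]
  refine ⟨Pool.Agent.Q17.TN.tendG G_mono many, ?_⟩
  obtain ⟨C, hC0, hC⟩ := Pool.Agent.Q17.TN.transferG (n := 8) (m := 4) (by norm_num) (by norm_num)
    (by norm_num) Pool.Agent.Y87.Z8.par many (fun H => filter_subset _ _)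
    (g := fun c => (2 : ℝ) ^ rank c) (g' := fun c => (2 : ℝ) ^ rank c) (fun m => by positivity)
    (fun b b' e q u r H L hb' => pow_le_pow_right₀ (by norm_num)
      (Pool.Agent.Q17.TN.rank_le_of L)) Pool.Agent.Y723.Z8.Fin8.main8
  refine ⟨C, fun H => ⟨hC H, fun r => ?_⟩⟩
  have h2 : (((G H).filter (fun c => r ≤ rank c)).card : ℝ) * 2 ^ r ≤
      ∑ c ∈ G H, (2 : ℝ) ^ rank c := by
    calc (((G H).filter (fun c => r ≤ rank c)).card : ℝ) * 2 ^ r
        = ∑ _c ∈ (G H).filter (fun c => r ≤ rank c), (2 : ℝ) ^ r := by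
          rw [sum_const, nsmul_eq_mul]
      _ ≤ ∑ c ∈ (G H).filter (fun c => r ≤ rank c), (2 : ℝ) ^ rank c := by
          refine sum_le_sum fun c hc => ?_
          exact pow_le_pow_right₀ (by norm_num) (mem_filter.1 hc).2
      _ ≤ _ := sum_le_sum_of_subset_of_nonneg (filter_subset _ _) fun c _ _ => by positivity
  have h4 : (0 : ℝ) < (2 : ℝ) ^ r := by positivity
  have h5 := h2.trans (hC H)
  rw [div_mul_eq_mul_div, le_div_iff₀ h4]
  exact h5

end Pool.Agent.Results.MP_9e6228_nt.TorsionEight
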