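import Mathlib
import Pool.Agent.Q17.TN.FrC
import Pool.Agent.W307.RT.Main4
import Pool.Agent.W261.RT.Iso

/-!
# The average of `2 ^ rank` over curves with torsion group `Z/4`

The elliptic curves `E` over `ℚ` with a rational point of order 4 which is contained in a rational
cyclic subgroup of order 8, with only one rational point of order 2 and without rational points of
order 8 have torsion group `Z/4` by Mazur's theorem (applied to `E` and to the quotient of `E` by the
point of order 2, which has a subgroup `Z/2 x Z/4`). They are ordered by height, and the average of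
`2 ^ rank` is bounded.

Proof: the quotient of such a curve by its point of order 2 has a subgroup `Z/2 x Z/4` of rational
points, and the quotient of such a curve by its middle point of order 2 is in the family, except for
few curves, for which a product of two linear forms in the parameters is a square.
-/

set_option autoImplicit false

namespace Pool.Agent.Results.MP_9e6228_nt.TorsionFour

open Finset Filter WeierstrassCurve

/-- the algebraic numbers -/
abbrev QQ : Type := AlgebraicClosure ℚ

/-- the curve `y² = x³ + A x + B` over `ℚ` -/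
def E (A B : ℤ) : WeierstrassCurve ℚ := ⟨0, 0, 0, (A : ℚ), (B : ℚ)⟩

open Classical in
/-- There is a point `P` of order 8 over the algebraic numbers such that `σ P = P` or `σ P = 5 P` for
all automorphisms `σ`. In other words: there is a rational point of order 4 (namely `2 P`) that is
contained in a rational cyclic subgroup of order 8 (generated by `P`). -/
def Cyclic (A B : ℤ) : Prop :=
  ∃ P : ((E A B).baseChange QQ).toAffine.Point, addOrderOf P = 8 ∧
    ∀ σ : QQ ≃ₐ[ℚ] QQ,
      Affine.Point.map (W' := (E A B).toAffine) (σ : QQ →ₐ[ℚ] QQ) P = P ∨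
      Affine.Point.map (W' := (E A B).toAffine) (σ : QQ →ₐ[ℚ] QQ) P = 5 • P

/-- there is at most one rational point of order two -/
def OneTwo (A B : ℤ) : Prop :=
  ∀ P Q : (E A B).toAffine.Point, addOrderOf P = 2 → addOrderOf Q = 2 → P = Q

/-- there is no rational point of order eight -/
def NoEight (A B : ℤ) : Prop := ∀ P : (E A B).toAffine.Point, addOrderOf P ≠ 8

open Classical in
/-- The pairs `(A, B)` of integers such that `4 A³ + 27 B² ≠ 0`, there is no prime `p` with
`p⁴ ∣ A` and `p⁶ ∣ B`, the height `max (4 |A|³) (27 B²)` is at most `H`, and `y² = x³ + A x + B` has a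
rational point of order 4 contained in a rational cyclic subgroup of order 8, only one rational point
of order two and no rational point of order eight. (The bounds `|A|, |B| ≤ H` follow from the bound of
the height. Every elliptic curve over `ℚ` is isomorphic to `E A B` for exactly one pair with the first
two properties.) -/
noncomputable def Fam (H : ℕ) : Finset (ℤ × ℤ) :=
  ((Icc (-(H : ℤ)) H) ×ˢ (Icc (-(H : ℤ)) H)).filter (fun c : ℤ × ℤ =>
    4 * c.1 ^ 3 + 27 * c.2 ^ 2 ≠ 0 ∧ 4 * |c.1| ^ 3 ≤ H ∧ 27 * c.2 ^ 2 ≤ H ∧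
    (∀ p : ℕ, p.Prime → ¬ ((p : ℤ) ^ 4 ∣ c.1 ∧ (p : ℤ) ^ 6 ∣ c.2)) ∧
    Cyclic c.1 c.2 ∧ OneTwo c.1 c.2 ∧ NoEight c.1 c.2)

/-- the Mordell-Weil rank -/
noncomputable def rank (c : ℤ × ℤ) : ℕ := Module.finrank ℤ (E c.1 c.2).toAffine.Point

/-! ### Proofs -/

lemma Fam_eq : Fam = Pool.Agent.Q17.TN.G4 := by
  classical
  funext H
  ext c
  unfold Fam Pool.Agent.Q17.TN.G4
  rw [mem_filter, mem_filter, Pool.Agent.Q17.TN.mem_FN]
  constructor
  · rintro ⟨-, h1, h2, h3, h4, h5, h6⟩
    exact ⟨⟨h1, h2, h3, h4, h5⟩, h6⟩
  · rintro ⟨⟨h1, h2, h3, h4, h5⟩, h6⟩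
    exact ⟨Pool.Agent.Q17.TN.small h2 h3, h1, h2, h3, h4, h5, h6⟩

/-- **Theorem.** Consider the elliptic curves over `ℚ` with a rational point of order 4 contained in a
rational cyclic subgroup of order 8, with only one rational point of order 2 and without rational
points of order 8 (so the torsion group is `Z/4`), ordered by height. Their number up to height `H`
tends to infinity with `H`. There is a constant `C` such that for all `H` the sum of `2 ^ rank` over the
curves of height at most `H` is at most `C` times their number, and for all `r` the number of the curves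
of height at most `H` and rank at least `r` is at most `C / 2 ^ r` times the number of the curves of
height at most `H`. -/
theorem result : Tendsto (fun H : ℕ => (Fam H).card) atTop atTop ∧
    ∃ C : ℝ, ∀ H : ℕ, ∑ c ∈ Fam H, (2 : ℝ) ^ rank c ≤ C * (Fam H).card ∧
      ∀ r : ℕ, (((Fam H).filter (fun c => r ≤ rank c)).card : ℝ) ≤ C / 2 ^ r * (Fam H).card := by
  classical
  rw [Fam_eq]
  refine ⟨Pool.Agent.Q17.TN.tendG Pool.Agent.Q17.TN.G4_mono Pool.Agent.Q17.TN.many4, ?_⟩
  obtain ⟨C, hC0, hC⟩ := Pool.Agent.Q17.TN.transferG (n := 4) (m := 2) (k := 12) (by norm_num)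
    (by norm_num) (by norm_num) (Pool.Agent.W605.RT.par4_of Pool.Agent.W261.RT.iso)
    Pool.Agent.Q17.TN.many4 (fun H => filter_subset _ _)
    (g := fun c => (2 : ℝ) ^ rank c) (g' := fun c => (2 : ℝ) ^ rank c) (fun m => by positivity)
    (fun b b' e q u r H L hb' => pow_le_pow_right₀ (by norm_num)
      (Pool.Agent.Q17.TN.rank_le_of L)) Pool.Agent.W307.RT.main4
  refine ⟨C, fun H => ⟨hC H, fun r => ?_⟩⟩
  have h2 : (((Pool.Agent.Q17.TN.G4 H).filter (fun c => r ≤ rank c)).card : ℝ) * 2 ^ r ≤
      ∑ c ∈ Pool.Agent.Q17.TN.G4 H, (2 : ℝ) ^ rank c := by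
    calc (((Pool.Agent.Q17.TN.G4 H).filter (fun c => r ≤ rank c)).card : ℝ) * 2 ^ r
        = ∑ _c ∈ (Pool.Agent.Q17.TN.G4 H).filter (fun c => r ≤ rank c), (2 : ℝ) ^ r := by
          rw [sum_const, nsmul_eq_mul]
      _ ≤ ∑ c ∈ (Pool.Agent.Q17.TN.G4 H).filter (fun c => r ≤ rank c), (2 : ℝ) ^ rank c := by
          refine sum_le_sum fun c hc => ?_
          exact pow_le_pow_right₀ (by norm_num) (mem_filter.1 hc).2
      _ ≤ _ := sum_le_sum_of_subset_of_nonneg (filter_subset _ _) fun c _ _ => by positivity
  have h4 : (0 : ℝ) < (2 : ℝ) ^ r := by positivity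
  have h5 := h2.trans (hC H)
  rw [div_mul_eq_mul_div, le_div_iff₀ h4]
  exact h5

end Pool.Agent.Results.MP_9e6228_nt.TorsionFour
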