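import Mathlib
import Pool.Agent.Q17.TN.SixB
import Pool.Agent.Q17.TN.Exg
import Pool.Agent.TH344.BF.Main
import Pool.Agent.W307.RT.Tors
import Pool.Agent.W261.RT.Iso

/-!
# The tails of the distribution of the ranks of curves with torsion group `Z/6`

The elliptic curves `E` over `ℚ` with a rational point of order 6 which is contained in a rational
cyclic subgroup of order 12, with only one rational point of order 2 and without rational points of
order 4 have torsion group `Z/6` by Mazur's theorem. They are ordered by height. There is one set of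
curves of density zero such that over all the other curves all the moments of `2 ^ rank` are bounded.
So the upper density of the curves of rank at least `r` decays faster than any exponential `B ^ (-r)`.

Proof: the quotient of such a curve by its point of order 2 has a subgroup `Z/2 x Z/6` of rational
points, and the quotient of such a curve by its middle point of order 2 is in the family, except for
few curves, for which a product of two linear forms in the parameters is a square.
-/

set_option autoImplicit false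

namespace Pool.Agent.Results.MP_9e6228_nt.TorsionSix

open Finset Filter WeierstrassCurve Topology

/-- the algebraic numbers -/
abbrev QQ : Type := AlgebraicClosure ℚ

/-- the curve `y² = x³ + A x + B` over `ℚ` -/
def E (A B : ℤ) : WeierstrassCurve ℚ := ⟨0, 0, 0, (A : ℚ), (B : ℚ)⟩

open Classical in
/-- There is a point `P` of order 12 over the algebraic numbers such that `σ P = P` or `σ P = 7 P` for
all automorphisms `σ`. In other words: there is a rational point of order 6 (namely `2 P`) that is
contained in a rational cyclic subgroup of order 12 (generated by `P`). -/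
def Cyclic (A B : ℤ) : Prop :=
  ∃ P : ((E A B).baseChange QQ).toAffine.Point, addOrderOf P = 12 ∧
    ∀ σ : QQ ≃ₐ[ℚ] QQ,
      Affine.Point.map (W' := (E A B).toAffine) (σ : QQ →ₐ[ℚ] QQ) P = P ∨
      Affine.Point.map (W' := (E A B).toAffine) (σ : QQ →ₐ[ℚ] QQ) P = 7 • P

/-- there is at most one rational point of order two -/
def OneTwo (A B : ℤ) : Prop :=
  ∀ P Q : (E A B).toAffine.Point, addOrderOf P = 2 → addOrderOf Q = 2 → P = Q

/-- there is no rational point of order four -/
def NoFour (A B : ℤ) : Prop := ∀ P : (E A B).toAffine.Point, addOrderOf P ≠ 4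

open Classical in
/-- The pairs `(A, B)` of integers such that `4 A³ + 27 B² ≠ 0`, there is no prime `p` with
`p⁴ ∣ A` and `p⁶ ∣ B`, the height `max (4 |A|³) (27 B²)` is at most `H`, and `y² = x³ + A x + B` has a
rational point of order 6 contained in a rational cyclic subgroup of order 12, only one rational point
of order two and no rational point of order four. (The bounds `|A|, |B| ≤ H` follow from the bound of
the height. Every elliptic curve over `ℚ` is isomorphic to `E A B` for exactly one pair with the first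
two properties.) -/
noncomputable def Fam (H : ℕ) : Finset (ℤ × ℤ) :=
  ((Icc (-(H : ℤ)) H) ×ˢ (Icc (-(H : ℤ)) H)).filter (fun c : ℤ × ℤ =>
    4 * c.1 ^ 3 + 27 * c.2 ^ 2 ≠ 0 ∧ 4 * |c.1| ^ 3 ≤ H ∧ 27 * c.2 ^ 2 ≤ H ∧
    (∀ p : ℕ, p.Prime → ¬ ((p : ℤ) ^ 4 ∣ c.1 ∧ (p : ℤ) ^ 6 ∣ c.2)) ∧
    Cyclic c.1 c.2 ∧ OneTwo c.1 c.2 ∧ NoFour c.1 c.2)

/-- the Mordell-Weil rank -/
noncomputable def rank (c : ℤ × ℤ) : ℕ := Module.finrank ℤ (E c.1 c.2).toAffine.Point

/-- the proportion of the curves of `S` among the curves of height at most `H` -/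
noncomputable def proportion (S : Set (ℤ × ℤ)) (H : ℕ) : ℝ :=
  (((Fam H : Set (ℤ × ℤ)) ∩ S).ncard : ℝ) / (Fam H).card

/-- the upper density of a set of curves -/
noncomputable def upperDensity (S : Set (ℤ × ℤ)) : ℝ := limsup (proportion S) atTop

/-! ### Proofs -/

lemma Fam_eq : Fam = Pool.Agent.Q17.TN.G6 := by
  classical
  funext H
  ext c
  unfold Fam Pool.Agent.Q17.TN.G6
  rw [mem_filter, mem_filter, Pool.Agent.Q17.TN.mem_FN]
  constructor
  · rintro ⟨-, h1, h2, h3, h4, h5, h6⟩
    exact ⟨⟨h1, h2, h3, h4, h5⟩, h6⟩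
  · rintro ⟨⟨h1, h2, h3, h4, h5⟩, h6⟩
    exact ⟨Pool.Agent.Q17.TN.small h2 h3, h1, h2, h3, h4, h5, h6⟩

open Classical in
/-- one exceptional set -/
lemma exc : ∃ Z : Set (ℤ × ℤ), (∀ ε : ℝ, 0 < ε → ∃ H0 : ℕ, ∀ H, H0 ≤ H →
      (((Fam H).filter (fun c => c ∈ Z)).card : ℝ) ≤ ε * (Fam H).card) ∧
      ∀ k : ℕ, ∃ C : ℝ, ∀ H,
        ∑ c ∈ (Fam H).filter (fun c => c ∉ Z), ((2 ^ rank c : ℕ) : ℝ) ^ k ≤ C * (Fam H).card := by
  obtain ⟨Z, hZ1, hZ2⟩ := Pool.Agent.TH344.BF.excs
  rw [Fam_eq]
  obtain ⟨Z', h1, h2⟩ := Pool.Agent.Q17.TN.excs (ι := Unit) (n := 6) (m := 3) (k := 24) (by norm_num)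
    (by norm_num) (by norm_num) (Pool.Agent.W135.RT.par6_of Pool.Agent.W261.RT.iso)
    Pool.Agent.Q17.TN.many6 (fun H => filter_subset _ _)
    (s := fun _ c => 2 ^ rank c) (s' := fun _ c => (Pool.Agent.W307.SE.SelR c.1 c.2).ncard)
    (fun _ b b' e q u r H L hb' =>
      (Nat.pow_le_pow_right (by norm_num) (Pool.Agent.Q17.TN.rank_le_of L)).trans
        (Pool.Agent.TH344.BF.sel6 hb').2.2) hZ1 (fun _ j => hZ2 j)
  exact ⟨Z', h1, fun k => h2 () k⟩

open Classical in
/-- **Theorem.** Consider the elliptic curves over `ℚ` with a rational point of order 6 contained in a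
rational cyclic subgroup of order 12, with only one rational point of order 2 and without rational
points of order 4 (so the torsion group is `Z/6`), ordered by height. Their number up to height `H`
tends to infinity with `H`. There is a set `Z` of curves of density zero such that for every `k` there
is `C` such that for all `H` the sum of `(2 ^ rank) ^ k` over the curves of height at most `H` outside
of `Z` is at most `C` times the number of the curves of height at most `H`, and for all `r` at most
`C / 2 ^ (k r)` times this number of the curves of height at most `H` outside of `Z` have rank at least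
`r`. For every real number `B` the upper density of the curves of rank at least `r`, times `B ^ r`,
tends to zero for `r → ∞`. -/
theorem result : Tendsto (fun H : ℕ => (Fam H).card) atTop atTop ∧
    (∃ Z : Set (ℤ × ℤ), Tendsto (proportion Z) atTop (𝓝 0) ∧ ∀ k : ℕ, ∃ C : ℝ, ∀ H : ℕ,
      ∑ c ∈ (Fam H).filter (fun c => c ∉ Z), ((2 : ℝ) ^ rank c) ^ k ≤ C * (Fam H).card ∧
      ∀ r : ℕ, (((Fam H).filter (fun c => c ∉ Z ∧ r ≤ rank c)).card : ℝ) ≤
        C * (Fam H).card / 2 ^ (k * r)) ∧
    ∀ B : ℝ, Tendsto (fun r : ℕ => B ^ r * upperDensity {c | r ≤ rank c}) atTop (𝓝 0) := by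
  obtain ⟨Z, hZ1, hZ2⟩ := exc
  refine ⟨?_, ⟨Z, Pool.Agent.TH344.GT.tendsto_of_eps Fam hZ1, fun k => ?_⟩, fun B => ?_⟩
  · rw [Fam_eq]
    exact Pool.Agent.Q17.TN.tendG Pool.Agent.Q17.TN.G6_mono Pool.Agent.Q17.TN.many6
  · obtain ⟨C, hC⟩ := hZ2 k
    have hC' : ∀ H, ∑ c ∈ (Fam H).filter (fun c => c ∉ Z), ((2 : ℝ) ^ rank c) ^ k ≤
        C * (Fam H).card := by
      intro H
      have := hC H
      push_cast at this
      exact this
    refine ⟨C, fun H => ⟨hC' H, fun r => ?_⟩⟩
    rw [le_div_iff₀ (by positivity)]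
    refine le_trans ?_ (hC' H)
    calc (((Fam H).filter (fun c => c ∉ Z ∧ r ≤ rank c)).card : ℝ) * 2 ^ (k * r)
        = ∑ _c ∈ (Fam H).filter (fun c => c ∉ Z ∧ r ≤ rank c), (2 : ℝ) ^ (k * r) := by
          rw [sum_const, nsmul_eq_mul]
      _ ≤ ∑ c ∈ (Fam H).filter (fun c => c ∉ Z ∧ r ≤ rank c), ((2 : ℝ) ^ rank c) ^ k := by
          refine sum_le_sum fun c hc => ?_
          rw [← pow_mul, mul_comm k r]
          exact pow_le_pow_right₀ (by norm_num) (Nat.mul_le_mul_right k (mem_filter.1 hc).2.2)
      _ ≤ _ := by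
          refine sum_le_sum_of_subset_of_nonneg (fun c hc => ?_) fun c _ _ => by positivity
          rw [mem_filter] at hc ⊢
          exact ⟨hc.1, hc.2.1⟩
  · exact Pool.Agent.TH344.GT.tail Fam ⟨Z, hZ1, hZ2⟩ 1 (S := fun r => {c | r ≤ rank c})
      (fun r H c _ hr => by
        rw [pow_one]
        exact Nat.pow_le_pow_right (by norm_num) hr) B

end Pool.Agent.Results.MP_9e6228_nt.TorsionSix
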